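import Pool.Agent.R832.UDF.Fin
import Pool.Agent.R832.UDF.Formal

/-!
# Deformations which do not come from a universal deformation formula

Let `A = k ⊕ V` with `V = k[x]` and `V * V = 0`, and let `t` be an element of the maximal ideal of
`R` which is not in its square. For `a ∈ A` let `a''` be its component in `V`. Then
`a * b = ab + t a'' b''` is an `R`-deformation of `A`. If it came from a universal deformation
formula `F = 1 ⊗ 1 + G`, comparing the coefficients of `t` would give
`g(ab) + a'' b'' = g(a) b + a g(b) + Σ_j p_j(a) q_j(b)` for a linear map `g` and finitely many linear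
maps `p_j, q_j : A → A`, because an element of a tensor product is a finite sum of pure tensors. As
`V` has infinite dimension, some `v ≠ 0` in `V` is such that `g(v)`, `p_j(v)` and `q_j(v)` all lie
in `V`. With `a = b = v` all the terms vanish except `v^2`, a contradiction.
-/

set_option autoImplicit false

namespace Pool.Agent.Results.MP_8ccf7f_al.NotFromUDF

open Pool.Agent.R832.UDF

universe u v w

/-- The tangent vector of `k[t]/(t^2)`. -/
noncomputable def dualTangent (k : Type u) [Field k] : Tangent k (DualNumber k) where
  aug := TrivSqZeroExt.fstHom k k k
  aug_max r hr := by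
    rw [DualNumber.maximalIdeal_eq_span_singleton_eps, Ideal.mem_span_singleton] at hr
    exact DualNumber.fst_eq_zero_iff_eps_dvd.2 hr
  t := DualNumber.eps
  t_mem := by
    rw [DualNumber.maximalIdeal_eq_span_singleton_eps]
    exact Ideal.mem_span_singleton_self _
  lam := TrivSqZeroExt.sndHom k k
  lam_mul r s := by
    simp [TrivSqZeroExt.snd_mul]
  lam_t := by simp

/-- For every field `k` there is a commutative unital `k`-algebra `A` which has an `R`-deformation
that is not equivalent to any deformation coming from a universal deformation formula, for
`R = k[t]/(t^2)`, for every local `k`-algebra `R ≠ k` of finite dimension with residue field `k`, and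
for `R = k[[t]]`. -/
theorem result (k : Type u) [Field k] :
    ∃ (A : Type u) (_ : CommRing A) (_ : Algebra k A),
      (∃ D : Deformation k (DualNumber k) A,
        ∀ (B : Type w) [Ring B] [Bialgebra k B], ¬ ComesFromUDF D B) ∧
      (∀ (R : Type v) [CommRing R] [IsLocalRing R] [Algebra k R] [Module.Finite k R],
        Function.Bijective (algebraMap k (IsLocalRing.ResidueField R)) → ¬ IsField R →
        ∃ D : Deformation k R A,
          ∀ (B : Type w) [Ring B] [Bialgebra k B], ¬ ComesFromUDF D B) ∧
      ∃ D : FormalDeformation k A,
        ∀ (B : Type w) [Ring B] [Bialgebra k B], ¬ FormalComesFromUDF D B := by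
  refine ⟨Alg k, inferInstance, inferInstance, ⟨_, fun B _ _ => not_comes (dualTangent k) B⟩,
    fun R _ _ _ _ hres hR => ?_, ⟨formal k, fun B _ _ => not_comes_formal B⟩⟩
  have : IsNoetherianRing R := isNoetherian_of_tower k (inferInstance : IsNoetherian k R)
  obtain ⟨T⟩ := exists_tangent hres hR
  exact ⟨_, fun B _ _ => not_comes T B⟩

end Pool.Agent.Results.MP_8ccf7f_al.NotFromUDF
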